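import Mathlib

/-!
# Area formula with constant multiplicity
-/

set_option autoImplicit false

open MeasureTheory Set Filter Topology
open scoped ENNReal

namespace Pool.Agent.helper26.SG

variable {E : Type*} [NormedAddCommGroup E] [NormedSpace ℝ E] [FiniteDimensional ℝ E]
  [MeasurableSpace E] [BorelSpace E]

omit [MeasurableSpace E] [BorelSpace E] in
/-- the regular set is covered by countably many open sets on which `f` is injective. -/
lemma exists_cover (f : E → E) (f' : E → E →L[ℝ] E)
    (hf : ∀ x, HasStrictFDerivAt f (f' x) x) (hc : Continuous f') :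
    ∃ W : ℕ → Set E, (∀ k, IsOpen (W k)) ∧ (∀ k, InjOn f (W k)) ∧
      ⋃ k, W k = {x | (f' x).det ≠ 0} := by
  classical
  set U : Set E := {x | (f' x).det ≠ 0} with hU
  have hUo : IsOpen U := by
    have : Continuous fun x => (f' x).det := ContinuousLinearMap.continuous_det.comp hc
    exact isOpen_ne_fun this continuous_const
  have hloc : ∀ x : E, ∃ V : Set E, IsOpen V ∧ InjOn f V ∧ V ⊆ U ∧ (x ∈ U → x ∈ V) := by
    intro x
    by_cases hx : x ∈ U
    · have hx' : (f' x).det ≠ 0 := hx
      let e := (f' x).toContinuousLinearEquivOfDetNeZero hx'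
      have he : HasStrictFDerivAt f (e : E →L[ℝ] E) x := by
        have : (e : E →L[ℝ] E) = f' x := by
          ext v; rfl
        rw [this]; exact hf x
      let h := he.toOpenPartialHomeomorph f
      refine ⟨h.source ∩ U, h.open_source.inter hUo, ?_, inter_subset_right, fun _ =>
        ⟨he.mem_toOpenPartialHomeomorph_source, hx⟩⟩
      have := h.injOn
      exact this.mono inter_subset_left
    · exact ⟨∅, isOpen_empty, injOn_empty f, empty_subset _, fun h => absurd h hx⟩
  choose V hVo hVi hVU hVx using hloc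
  obtain ⟨T, hT, hTU⟩ := TopologicalSpace.isOpen_iUnion_countable V hVo
  obtain ⟨g, hg⟩ := (countable_iff_exists_subset_range (s := T)).1 hT
  refine ⟨fun k => V (g k), fun k => hVo _, fun k => hVi _, ?_⟩
  apply Subset.antisymm
  · exact iUnion_subset fun k => hVU _
  · intro x hx
    have : x ∈ ⋃ i ∈ T, V i := by
      rw [hTU]; exact mem_iUnion.2 ⟨x, hVx x hx⟩
    simp only [mem_iUnion] at this ⊢
    obtain ⟨i, hi, hxi⟩ := this
    obtain ⟨k, rfl⟩ := hg hi
    exact ⟨k, hxi⟩

/-- Area formula when almost every fibre consists of exactly `n` regular points. -/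
theorem area_mult (μ : Measure E) [μ.IsAddHaarMeasure]
    (f : E → E) (f' : E → E →L[ℝ] E)
    (hf : ∀ x, HasStrictFDerivAt f (f' x) x) (hc : Continuous f') (n : ℕ)
    (G : E → ℝ≥0∞) (hG : Measurable G)
    (hn : ∀ᵐ a ∂μ, ∃ s : Finset E, (∀ u, u ∈ s ↔ f u = a) ∧ s.card = n ∧
      ∀ u ∈ s, (f' u).det ≠ 0) :
    ∫⁻ x, ENNReal.ofReal |(f' x).det| * G (f x) ∂μ = n * ∫⁻ a, G a ∂μ := by
  classical
  obtain ⟨W, hWo, hWi, hWU⟩ := exists_cover f f' hf hc
  set U : Set E := {x | (f' x).det ≠ 0} with hU
  set t : ℕ → Set E := disjointed W with ht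
  have htm : ∀ k, MeasurableSet (t k) := fun k =>
    MeasurableSet.disjointed (fun k => (hWo k).measurableSet) k
  have htd : Pairwise (Function.onFun Disjoint t) := disjoint_disjointed W
  have htU : ⋃ k, t k = U := by rw [ht, iUnion_disjointed, hWU]
  have hti : ∀ k, InjOn f (t k) := fun k => (hWi k).mono (disjointed_subset W k)
  have hfd : ∀ k, ∀ x ∈ t k, HasFDerivWithinAt f (f' x) (t k) x := fun k x _ =>
    (hf x).hasFDerivAt.hasFDerivWithinAt
  have hUm : MeasurableSet U := by rw [← htU]; exact MeasurableSet.iUnion htm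
  have h1 : ∫⁻ x, ENNReal.ofReal |(f' x).det| * G (f x) ∂μ =
      ∫⁻ x in U, ENNReal.ofReal |(f' x).det| * G (f x) ∂μ := by
    rw [← lintegral_indicator hUm]
    apply lintegral_congr
    intro x
    by_cases hx : x ∈ U
    · rw [indicator_of_mem hx]
    · rw [indicator_of_notMem hx]
      have : (f' x).det = 0 := by
        by_contra h; exact hx h
      simp [this]
  have h2 : ∀ k, ∫⁻ x in t k, ENNReal.ofReal |(f' x).det| * G (f x) ∂μ =
      ∫⁻ a, (f '' t k).indicator G a ∂μ := by
    intro k
    rw [← lintegral_image_eq_lintegral_abs_det_fderiv_mul μ (htm k) (hfd k) (hti k),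
      lintegral_indicator (measurable_image_of_fderivWithin (htm k) (hfd k) (hti k))]
  rw [h1, ← htU, lintegral_iUnion htm htd]
  simp_rw [h2]
  rw [← lintegral_tsum (fun k => (hG.indicator
    (measurable_image_of_fderivWithin (htm k) (hfd k) (hti k))).aemeasurable),
    ← lintegral_const_mul _ hG]
  apply lintegral_congr_ae
  filter_upwards [hn] with a ha
  obtain ⟨s, hs, hsn, hsU⟩ := ha
  have h3 : ∀ k, (f '' t k).indicator G a = ∑ u ∈ s, (t k).indicator (fun _ => G a) u := by
    intro k
    by_cases hk : a ∈ f '' t k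
    · rw [indicator_of_mem hk]
      obtain ⟨u, hu, hua⟩ := hk
      rw [Finset.sum_eq_single u]
      · rw [indicator_of_mem hu]
      · intro v hv hvu
        apply indicator_of_notMem
        intro hvt
        apply hvu
        apply hti k hvt hu
        rw [hua]; exact (hs v).1 hv
      · intro h
        exact absurd ((hs u).2 hua) h
    · rw [indicator_of_notMem hk]
      symm
      apply Finset.sum_eq_zero
      intro u hu
      apply indicator_of_notMem
      intro hut
      exact hk ⟨u, hut, (hs u).1 hu⟩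
  simp_rw [h3]
  have h4 : ∑' k, ∑ u ∈ s, (t k).indicator (fun _ => G a) u =
      ∑ u ∈ s, ∑' k, (t k).indicator (fun _ => G a) u := by
    exact Summable.tsum_finsetSum (fun _ _ => ENNReal.summable)
  rw [h4]
  have h5 : ∀ u ∈ s, ∑' k, (t k).indicator (fun _ => G a) u = G a := by
    intro u hu
    have huU : u ∈ ⋃ k, t k := by rw [htU]; exact hsU u hu
    obtain ⟨k, hk⟩ := mem_iUnion.1 huU
    rw [tsum_eq_single k]
    · rw [indicator_of_mem hk]
    · intro j hj
      apply indicator_of_notMem
      intro hj'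
      exact (Set.disjoint_left.1 (htd hj) hj') hk
  rw [Finset.sum_congr rfl h5, Finset.sum_const, hsn, nsmul_eq_mul]

end Pool.Agent.helper26.SG
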