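import Mathlib
import Pool.Agent.helper84.SG.Defs2

/-!
# The fibres of `(z, y) ↦ z b + (z Q - P) y`

Algebraic part of the Kac-Rice formula for the generalized eigenvalues of a pencil.
-/

set_option autoImplicit false

open Polynomial

namespace Pool.Agent.helper26.SG

variable {N : ℕ}

export Pool.Agent.helper84.SG (mk)

/-- `(z, y) ↦ z b + (z Q - P) y`. -/
def phi (P Q : Fin (N + 1) → Fin N → ℂ) (b : Fin (N + 1) → ℂ) (u : Fin (N + 1) → ℂ) :
    Fin (N + 1) → ℂ :=
  fun i => u 0 * b i + ∑ j : Fin N, (u 0 * Q i j - P i j) * u j.succ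

/-- the jacobian matrix of `phi` -/
def Jm (P Q : Fin (N + 1) → Fin N → ℂ) (b : Fin (N + 1) → ℂ) (u : Fin (N + 1) → ℂ) :
    Matrix (Fin (N + 1)) (Fin (N + 1)) ℂ :=
  Matrix.of (mk (fun i => b i + ∑ j, Q i j * u j.succ) (u 0 • Q - P))

/-- the polynomial of the pencil -/
noncomputable def pp (P Q : Fin (N + 1) → Fin N → ℂ) (a b : Fin (N + 1) → ℂ) : ℂ[X] :=
  Matrix.det ((X : ℂ[X]) • (Matrix.of (mk b Q)).map C + (-Matrix.of (mk a P)).map C)

lemma pp_coeff (P Q : Fin (N + 1) → Fin N → ℂ) (a b : Fin (N + 1) → ℂ) :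
    (pp P Q a b).coeff (N + 1) = (Matrix.of (mk b Q)).det := by
  have := coeff_det_X_add_C_card (Matrix.of (mk b Q)) (-Matrix.of (mk a P))
  rwa [Fintype.card_fin] at this

lemma pp_natDegree (P Q : Fin (N + 1) → Fin N → ℂ) (a b : Fin (N + 1) → ℂ)
    (hB : (Matrix.of (mk b Q)).det ≠ 0) : (pp P Q a b).natDegree = N + 1 := by
  apply le_antisymm
  · have := natDegree_det_X_add_C_le (Matrix.of (mk b Q)) (-Matrix.of (mk a P))
    rwa [Fintype.card_fin] at this
  · apply le_natDegree_of_ne_zero
    rwa [pp_coeff]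

lemma pp_eval (P Q : Fin (N + 1) → Fin N → ℂ) (a b : Fin (N + 1) → ℂ) (z : ℂ) :
    (pp P Q a b).eval z = (z • Matrix.of (mk b Q) - Matrix.of (mk a P)).det := by
  unfold pp
  rw [← coe_evalRingHom, RingHom.map_det]
  congr 1
  ext i j
  simp [sub_eq_add_neg]
  ring

/-- vectors of the kernel of the pencil with first coordinate `1`. -/
lemma mulVec_eq (P Q : Fin (N + 1) → Fin N → ℂ) (a b : Fin (N + 1) → ℂ) (z : ℂ)
    (x : Fin (N + 1) → ℂ) (i : Fin (N + 1)) :
    (z • Matrix.of (mk b Q) - Matrix.of (mk a P)).mulVec x i =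
      (z * b i - a i) * x 0 + ∑ j : Fin N, (z * Q i j - P i j) * x j.succ := by
  simp [Matrix.mulVec, dotProduct, Fin.sum_univ_succ, mk]

/-- factorization of the pencil polynomial at a point of the fibre -/
lemma pp_factor (P Q : Fin (N + 1) → Fin N → ℂ) (a b : Fin (N + 1) → ℂ)
    (u : Fin (N + 1) → ℂ) (hu : phi P Q b u = a) :
    ∃ q : ℂ[X], pp P Q a b = (X - C (u 0)) * q ∧ q.eval (u 0) = (Jm P Q b u).det := by
  set M : Matrix (Fin (N + 1)) (Fin (N + 1)) ℂ[X] :=
    (X : ℂ[X]) • (Matrix.of (mk b Q)).map C + (-Matrix.of (mk a P)).map C with hM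
  refine ⟨(M.updateCol 0 (fun k => C (b k + ∑ j, Q k j * u j.succ))).det, ?_, ?_⟩
  · have h1 := Matrix.det_updateCol_sum M 0 (Fin.cons (1 : ℂ[X]) (fun j => C (u j.succ)))
    rw [Fin.cons_zero, one_smul] at h1
    have h2 : (fun k => ∑ i, (Fin.cons (1 : ℂ[X]) (fun j => C (u j.succ)) : Fin (N + 1) → ℂ[X]) i • M k i)
        = (X - C (u 0)) • (fun k => C (b k + ∑ j, Q k j * u j.succ)) := by
      funext k
      have hk : a k = u 0 * b k + ∑ j : Fin N, (u 0 * Q k j - P k j) * u j.succ := by
        rw [← hu]; rfl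
      rw [Fin.sum_univ_succ]
      simp only [Fin.cons_zero, Fin.cons_succ, hM, Matrix.add_apply, Matrix.smul_apply,
        Matrix.map_apply, Matrix.of_apply, Matrix.neg_apply, mk, smul_eq_mul, Pi.smul_apply, one_mul]
      rw [hk]
      simp only [map_add, map_sum, map_mul, map_neg, map_sub]
      simp only [mul_add, sub_mul, Finset.mul_sum, Finset.sum_add_distrib, Finset.sum_sub_distrib]
      have e1 : ∀ x : Fin N, C (u x.succ) * (X * C (Q k x)) = X * (C (Q k x) * C (u x.succ)) := by
        intro x; ring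
      have e2 : ∀ x : Fin N, C (u x.succ) * -C (P k x) = - (C (P k x) * C (u x.succ)) := by
        intro x; ring
      have e3 : ∀ x : Fin N, C (u 0) * C (Q k x) * C (u x.succ) = C (u 0) * (C (Q k x) * C (u x.succ)) := by
        intro x; ring
      simp only [e1, e2, e3, Finset.sum_neg_distrib]
      ring
    rw [h2, Matrix.det_updateCol_smul] at h1
    exact h1.symm
  · rw [← coe_evalRingHom, RingHom.map_det]
    congr 1
    ext i j
    refine Fin.cases ?_ (fun j => ?_) j
    · simp [Jm, mk, eval_finsetSum]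
    · simp [Jm, mk, hM, sub_eq_add_neg]
      ring

/-- generic fibres of `phi` have `N + 1` points -/
theorem fibre_card (P Q : Fin (N + 1) → Fin N → ℂ) (a b : Fin (N + 1) → ℂ)
    (hB : (Matrix.of (mk b Q)).det ≠ 0)
    (hPQ : ∀ (z : ℂ) (y : Fin N → ℂ), (∀ i, ∑ j, (z * Q i j - P i j) * y j = 0) → y = 0)
    (hreg : ∀ u, phi P Q b u = a → (Jm P Q b u).det ≠ 0) :
    ∃ s : Finset (Fin (N + 1) → ℂ), (∀ u, u ∈ s ↔ phi P Q b u = a) ∧ s.card = N + 1 := by
  classical
  have hp0 : pp P Q a b ≠ 0 := by
    intro h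
    apply hB
    rw [← pp_coeff P Q a b, h, coeff_zero]
  -- roots are exactly the first coordinates of points of the fibre
  have hroot : ∀ z, (pp P Q a b).IsRoot z ↔ ∃ u, phi P Q b u = a ∧ u 0 = z := by
    intro z
    constructor
    · intro hz
      rw [IsRoot.def, pp_eval] at hz
      obtain ⟨x, hx0, hx⟩ := Matrix.exists_mulVec_eq_zero_iff.mpr hz
      have hx' : ∀ i, (z * b i - a i) * x 0 + ∑ j : Fin N, (z * Q i j - P i j) * x j.succ = 0 := by
        intro i
        rw [← mulVec_eq, hx]; rfl
      have hxz : x 0 ≠ 0 := by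
        intro h0
        have : (fun j : Fin N => x j.succ) = 0 := by
          apply hPQ z
          intro i
          have := hx' i
          rwa [h0, mul_zero, zero_add] at this
        apply hx0
        funext i
        refine Fin.cases h0 (fun j => ?_) i
        exact congrFun this j
      refine ⟨Fin.cons z (fun j => x j.succ / x 0), ?_, by simp⟩
      funext i
      simp only [phi, Fin.cons_zero, Fin.cons_succ]
      have h := hx' i
      have h2 : ∑ j : Fin N, (z * Q i j - P i j) * (x j.succ / x 0) =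
          (∑ j : Fin N, (z * Q i j - P i j) * x j.succ) / x 0 := by
        rw [Finset.sum_div]
        exact Finset.sum_congr rfl fun j _ => by ring
      rw [h2, eq_neg_of_add_eq_zero_right h]
      field_simp
      ring
    · rintro ⟨u, hu, rfl⟩
      obtain ⟨q, hq, -⟩ := pp_factor P Q a b u hu
      rw [IsRoot.def, hq]; simp
  have hmult : ∀ z, (pp P Q a b).IsRoot z → (pp P Q a b).rootMultiplicity z = 1 := by
    intro z hz
    obtain ⟨u, hu, rfl⟩ := (hroot z).1 hz
    obtain ⟨q, hq, hq'⟩ := pp_factor P Q a b u hu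
    have hqr : ¬ q.IsRoot (u 0) := by
      rw [IsRoot.def, hq']; exact hreg u hu
    rw [hq] at hp0 ⊢
    rw [rootMultiplicity_mul hp0, rootMultiplicity_X_sub_C_self, rootMultiplicity_eq_zero hqr]
  have hnd : (pp P Q a b).roots.Nodup := by
    rw [Multiset.nodup_iff_count_le_one]
    intro z
    rw [count_roots]
    by_cases hz : (pp P Q a b).IsRoot z
    · rw [hmult z hz]
    · rw [rootMultiplicity_eq_zero hz]; exact zero_le_one
  have hcard : (pp P Q a b).roots.toFinset.card = N + 1 := by
    rw [Multiset.toFinset_card_of_nodup hnd, ← pp_natDegree P Q a b hB]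
    exact splits_iff_card_roots.mp (IsAlgClosed.splits _)
  -- choose a section
  have hch : ∀ z : (pp P Q a b).roots.toFinset, ∃ u, phi P Q b u = a ∧ u 0 = z.1 := by
    intro z
    apply (hroot z.1).1
    have := z.2
    rw [Multiset.mem_toFinset, mem_roots hp0] at this
    exact this
  choose g hg hg0 using hch
  have ginj : Function.Injective g := by
    intro z w h
    apply Subtype.ext
    rw [← hg0 z, ← hg0 w, h]
  refine ⟨Finset.univ.map ⟨g, ginj⟩, ?_, ?_⟩
  · intro u
    simp only [Finset.mem_map, Finset.mem_univ, Function.Embedding.coeFn_mk, true_and]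
    constructor
    · rintro ⟨z, rfl⟩; exact hg z
    · intro hu
      have hz : u 0 ∈ (pp P Q a b).roots.toFinset := by
        rw [Multiset.mem_toFinset, mem_roots hp0]
        exact (hroot _).2 ⟨u, hu, rfl⟩
      refine ⟨⟨u 0, hz⟩, ?_⟩
      set w := g ⟨u 0, hz⟩ with hw
      have hw0 : w 0 = u 0 := hg0 ⟨u 0, hz⟩
      have hwa : phi P Q b w = a := hg ⟨u 0, hz⟩
      have : (fun j : Fin N => w j.succ - u j.succ) = 0 := by
        apply hPQ (u 0)
        intro i
        have h1 := congrFun hwa i
        have h2 := congrFun hu i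
        simp only [phi] at h1 h2
        rw [hw0] at h1
        have : ∑ j, (u 0 * Q i j - P i j) * (w j.succ - u j.succ) =
          (∑ j, (u 0 * Q i j - P i j) * w j.succ) - ∑ j, (u 0 * Q i j - P i j) * u j.succ := by
          rw [← Finset.sum_sub_distrib]
          exact Finset.sum_congr rfl fun j _ => by ring
        rw [this]
        linear_combination h1 - h2
      funext i
      refine Fin.cases hw0 (fun j => ?_) i
      have := congrFun this j
      simpa [sub_eq_zero] using this
  · rw [Finset.card_map, Finset.card_univ, Fintype.card_coe, hcard]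

end Pool.Agent.helper26.SG
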