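import Mathlib
import Pool.Agent.helper26.SG.Fibre

/-!
# Null sets and the derivative of `phi`
-/

set_option autoImplicit false

open MeasureTheory Set Filter Topology
open scoped ENNReal

namespace Pool.Agent.helper26.SG

variable {N : ℕ}

instance haar2 (m n : ℕ) : (volume : Measure (Fin m → Fin n → ℂ)).IsAddHaarMeasure :=
  Measure.pi.isAddHaarMeasure _

instance haar3 (m n : ℕ) :
    (volume : Measure ((Fin m → Fin n → ℂ) × (Fin m → Fin n → ℂ))).IsAddHaarMeasure :=
  Measure.prod.instIsAddHaarMeasure _ _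

/-- the range of a map which ignores one direction is a null set -/
lemma null_of_dummy {E : Type*} [NormedAddCommGroup E] [NormedSpace ℝ E] [FiniteDimensional ℝ E]
    [MeasurableSpace E] [BorelSpace E] (μ : Measure E) [μ.IsAddHaarMeasure]
    (f : E → E) (hf : Differentiable ℝ f) (v : E) (hv : v ≠ 0)
    (h : ∀ x (t : ℝ), f (x + t • v) = f x) : μ (range f) = 0 := by
  rw [← image_univ]
  apply addHaar_image_eq_zero_of_det_fderivWithin_eq_zero μ (f' := fderiv ℝ f)
    (fun x _ => (hf x).hasFDerivAt.hasFDerivWithinAt)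
  intro x _
  by_contra hd
  apply hv
  have h1 : fderiv ℝ f x v = 0 := by
    have ha : HasDerivAt (fun t : ℝ => f (x + t • v)) (fderiv ℝ f x v) 0 := by
      have hb : HasFDerivAt f (fderiv ℝ f x) (x + (0 : ℝ) • v) := by
        rw [zero_smul, add_zero]; exact (hf x).hasFDerivAt
      have hc : HasDerivAt (fun t : ℝ => x + t • v) v 0 := by
        simpa using ((hasDerivAt_id (0 : ℝ)).smul_const v).const_add x
      exact hb.comp_hasDerivAt (0 : ℝ) hc
    have hb : HasDerivAt (fun t : ℝ => f (x + t • v)) 0 0 := by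
      have : (fun t : ℝ => f (x + t • v)) = fun _ => f x := by
        funext t; exact h x t
      rw [this]; exact hasDerivAt_const _ _
    exact ha.unique hb
  let e := (fderiv ℝ f x).toContinuousLinearEquivOfDetNeZero hd
  have : e v = e 0 := by
    rw [map_zero]; exact h1
  exact e.injective this

/-! ### (i) almost every square matrix is invertible -/

/-- the parametrization of singular matrices -/
def psi (j : Fin (N + 1)) (B : Fin (N + 1) → Fin (N + 1) → ℂ) : Fin (N + 1) → Fin (N + 1) → ℂ :=
  fun i k => if k = j then - ∑ l ∈ Finset.univ.erase j, B i l * B l j else B i k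

lemma ae_det (N : ℕ) : ∀ᵐ B : Fin (N + 1) → Fin (N + 1) → ℂ, (Matrix.of B).det ≠ 0 := by
  classical
  have h : ∀ j : Fin (N + 1), volume (range (psi j)) = 0 := by
    intro j
    apply null_of_dummy volume (psi j) ?_ (Pi.single j (Pi.single j 1)) ?_ ?_
    · unfold psi
      apply differentiable_pi.2; intro i
      apply differentiable_pi.2; intro k
      split_ifs
      · fun_prop
      · fun_prop
    · intro h
      have := congrFun (congrFun h j) j
      simp at this
    · intro B t
      funext i k
      unfold psi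
      split_ifs with hk
      · congr 1
        apply Finset.sum_congr rfl
        intro l hl
        have hlj : l ≠ j := Finset.ne_of_mem_erase hl
        congr 1
        · by_cases hi : i = j
          · subst hi; simp [hlj]
          · simp [hi]
        · simp [hlj]
      · by_cases hi : i = j
        · subst hi; simp [hk]
        · simp [hi]
  have h2 : volume (⋃ j : Fin (N + 1), range (psi j)) = 0 := by
    rw [measure_iUnion_null_iff]; exact h
  rw [ae_iff]
  apply measure_mono_null _ h2
  intro B hB
  simp only [not_not, mem_ofPred_eq] at hB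
  obtain ⟨x, hx0, hx⟩ := Matrix.exists_mulVec_eq_zero_iff.mpr hB
  obtain ⟨j, hj⟩ : ∃ j, x j ≠ 0 := by
    by_contra hcon
    push Not at hcon
    exact hx0 (funext hcon)
  rw [mem_iUnion]
  refine ⟨j, ⟨fun i k => if k = j then x i / x j else B i k, ?_⟩⟩
  funext i k
  unfold psi
  split_ifs with hk
  · subst hk
    have h1 : ∑ l, B i l * x l = 0 := congrFun hx i
    rw [← Finset.add_sum_erase _ _ (Finset.mem_univ k)] at h1
    have h3 : ∑ l ∈ Finset.univ.erase k, (if l = k then x i / x k else B i l) *
        (if k = k then x l / x k else B l k) = (∑ l ∈ Finset.univ.erase k, B i l * x l) / x k := by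
      rw [Finset.sum_div]
      apply Finset.sum_congr rfl
      intro l hl
      have hlj : l ≠ k := Finset.ne_of_mem_erase hl
      simp only [if_neg hlj, if_true]
      ring
    rw [h3]
    field_simp
    linear_combination -h1
  · simp [hk]

/-! ### (ii) the rectangular pencil has full rank at every point -/

/-- the parametrization of degenerate rectangular pencils -/
def psi2 (j : Fin N) (PQ : (Fin (N + 1) → Fin N → ℂ) × (Fin (N + 1) → Fin N → ℂ)) :
    (Fin (N + 1) → Fin N → ℂ) × (Fin (N + 1) → Fin N → ℂ) :=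
  (fun i k => if k = j then PQ.1 0 j * PQ.2 i j + ∑ l ∈ Finset.univ.erase j,
      (PQ.1 0 j * PQ.2 i l - PQ.1 i l) * PQ.1 l.succ j else PQ.1 i k, PQ.2)

lemma ae_rank (N : ℕ) : ∀ᵐ PQ : (Fin (N + 1) → Fin N → ℂ) × (Fin (N + 1) → Fin N → ℂ),
    ∀ (z : ℂ) (y : Fin N → ℂ), (∀ i, ∑ j, (z * PQ.2 i j - PQ.1 i j) * y j = 0) → y = 0 := by
  classical
  have h : ∀ j : Fin N, volume (range (psi2 j)) = 0 := by
    intro j
    apply null_of_dummy volume (psi2 j) ?_ (Pi.single j.succ (Pi.single j 1), 0) ?_ ?_
    · unfold psi2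
      apply Differentiable.prodMk
      · apply differentiable_pi.2; intro i
        apply differentiable_pi.2; intro k
        split_ifs
        · fun_prop
        · fun_prop
      · fun_prop
    · intro h
      have := congrFun (congrFun (congrArg Prod.fst h) j.succ) j
      simp at this
    · intro PQ t
      unfold psi2
      refine Prod.ext ?_ ?_
      · funext i k
        have hs : ∀ l : Fin N, l ≠ j → ∀ i : Fin (N + 1),
            (PQ + t • ((Pi.single j.succ (Pi.single j 1), 0) :
              (Fin (N + 1) → Fin N → ℂ) × (Fin (N + 1) → Fin N → ℂ))).1 i l = PQ.1 i l := by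
          intro l hl i
          by_cases hi : i = j.succ
          · subst hi; simp [hl]
          · simp [hi]
        have hs' : ∀ i : Fin (N + 1), i ≠ j.succ →
            (PQ + t • ((Pi.single j.succ (Pi.single j 1), 0) :
              (Fin (N + 1) → Fin N → ℂ) × (Fin (N + 1) → Fin N → ℂ))).1 i j = PQ.1 i j := by
          intro i hi
          simp [hi]
        have hq : (PQ + t • ((Pi.single j.succ (Pi.single j 1), 0) :
              (Fin (N + 1) → Fin N → ℂ) × (Fin (N + 1) → Fin N → ℂ))).2 = PQ.2 := by
          simp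
        simp only
        rw [hq, hs' 0 (Fin.succ_ne_zero j).symm]
        split_ifs with hk
        · congr 1
          apply Finset.sum_congr rfl
          intro l hl
          have hlj : l ≠ j := Finset.ne_of_mem_erase hl
          rw [hs l hlj, hs' l.succ (fun h => hlj (Fin.succ_injective _ h))]
        · exact hs k hk i
      · simp
  have h2 : volume (⋃ j : Fin N, range (psi2 j)) = 0 := by
    rw [measure_iUnion_null_iff]; exact h
  rw [ae_iff]
  apply measure_mono_null _ h2
  rintro ⟨P, Q⟩ hPQ
  simp only [mem_ofPred_eq, not_forall] at hPQ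
  obtain ⟨z, y, hzy, hy⟩ := hPQ
  obtain ⟨j, hj⟩ : ∃ j, y j ≠ 0 := by
    by_contra hcon
    push Not at hcon
    exact hy (funext hcon)
  rw [mem_iUnion]
  refine ⟨j, ⟨(fun i k => if k = j then (Fin.cons z (fun l => y l / y j) : Fin (N + 1) → ℂ) i
    else P i k, Q), ?_⟩⟩
  unfold psi2
  refine Prod.ext ?_ rfl
  funext i k
  simp only
  split_ifs with hk
  · subst hk
    simp only [Fin.cons_zero]
    have h1 := hzy i
    rw [← Finset.add_sum_erase _ _ (Finset.mem_univ k)] at h1
    have h3 : ∑ l ∈ Finset.univ.erase k, (z * Q i l - (if l = k then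
        (Fin.cons z (fun l => y l / y k) : Fin (N + 1) → ℂ) i else P i l)) *
        (Fin.cons z (fun l => y l / y k) : Fin (N + 1) → ℂ) l.succ =
        (∑ l ∈ Finset.univ.erase k, (z * Q i l - P i l) * y l) / y k := by
      rw [Finset.sum_div]
      apply Finset.sum_congr rfl
      intro l hl
      have hlj : l ≠ k := Finset.ne_of_mem_erase hl
      rw [if_neg hlj, Fin.cons_succ]
      ring
    rw [h3]
    field_simp
    linear_combination h1
  · rfl

/-! ### (iii) the derivative of `phi` and its critical values -/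

/-- the complex derivative of `phi` -/
noncomputable def dphi (P Q : Fin (N + 1) → Fin N → ℂ) (b : Fin (N + 1) → ℂ)
    (u : Fin (N + 1) → ℂ) : (Fin (N + 1) → ℂ) →L[ℂ] (Fin (N + 1) → ℂ) :=
  (Matrix.toLin' (Jm P Q b u)).toContinuousLinearMap

lemma hasFDerivAt_phi (P Q : Fin (N + 1) → Fin N → ℂ) (b : Fin (N + 1) → ℂ)
    (u : Fin (N + 1) → ℂ) : HasFDerivAt (phi P Q b) (dphi P Q b u) u := by
  unfold phi
  rw [hasFDerivAt_pi']
  intro i
  have h0 : ∀ k : Fin (N + 1), HasFDerivAt (𝕜 := ℂ) (fun u : Fin (N + 1) → ℂ => u k)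
      (ContinuousLinearMap.proj k) u := fun k =>
    (ContinuousLinearMap.proj (R := ℂ) (φ := fun _ : Fin (N + 1) => ℂ) k).hasFDerivAt
  have h := ((h0 0).mul_const (b i)).add (HasFDerivAt.fun_sum (u := Finset.univ)
    fun (j : Fin N) _ => ((((h0 0).mul_const (Q i j)).sub_const (P i j)).mul (h0 j.succ)))
  refine h.congr_fderiv ?_
  ext v
  simp only [dphi, Jm, ContinuousLinearMap.comp_apply, add_apply,
    smul_apply, ContinuousLinearMap.proj_apply, smul_eq_mul,
    sum_apply, LinearMap.coe_toContinuousLinearMap', Matrix.toLin'_apply,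
    Matrix.mulVec, dotProduct, Fin.sum_univ_succ, Matrix.of_apply, mk, Fin.cons_zero,
    Fin.cons_succ, Pi.sub_apply, Pi.smul_apply]
  rw [Finset.sum_add_distrib, add_mul, Finset.sum_mul]
  have e1 : ∀ x : Fin N, u x.succ * (Q i x * v 0) = Q i x * u x.succ * v 0 := by
    intro x; ring
  simp only [e1]
  ring

lemma contDiff_phi (P Q : Fin (N + 1) → Fin N → ℂ) (b : Fin (N + 1) → ℂ) :
    ContDiff ℝ ⊤ (phi P Q b) := by
  unfold phi
  apply contDiff_pi.2
  intro i
  fun_prop

lemma det_fderiv_phi (P Q : Fin (N + 1) → Fin N → ℂ) (b : Fin (N + 1) → ℂ)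
    (u : Fin (N + 1) → ℂ) :
    (fderiv ℝ (phi P Q b) u).det = ‖(Jm P Q b u).det‖ ^ 2 := by
  have h : fderiv ℝ (phi P Q b) u = (dphi P Q b u).restrictScalars ℝ :=
    ((hasFDerivAt_phi P Q b u).restrictScalars ℝ).fderiv
  rw [h]
  have h2 : ((dphi P Q b u).restrictScalars ℝ).det =
      LinearMap.det ((Matrix.toLin' (Jm P Q b u)).restrictScalars ℝ) := rfl
  rw [h2, LinearMap.det_restrictScalars, LinearMap.det_toLin', Algebra.norm_complex_eq]
  simp [Complex.normSq_eq_norm_sq]

lemma ae_regular (P Q : Fin (N + 1) → Fin N → ℂ) (b : Fin (N + 1) → ℂ) :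
    ∀ᵐ a : Fin (N + 1) → ℂ, ∀ u, phi P Q b u = a → (Jm P Q b u).det ≠ 0 := by
  have hd : Differentiable ℝ (phi P Q b) := (contDiff_phi P Q b).differentiable (by simp)
  have h := addHaar_image_eq_zero_of_det_fderivWithin_eq_zero volume
    (s := {u | (Jm P Q b u).det = 0}) (f := phi P Q b) (f' := fderiv ℝ (phi P Q b))
    (fun x _ => (hd x).hasFDerivAt.hasFDerivWithinAt) (by
      intro x hx
      rw [det_fderiv_phi, show (Jm P Q b x).det = 0 from hx]; simp)
  rw [ae_iff]
  apply measure_mono_null _ h
  intro a ha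
  simp only [mem_ofPred_eq, not_forall, not_not] at ha
  obtain ⟨u, hu, hu'⟩ := ha
  exact ⟨u, hu', hu⟩

end Pool.Agent.helper26.SG
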