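import Mathlib
import Pool.Agent.helper26.SG.Fibre
import Pool.Agent.helper26.SG.Area
import Pool.Agent.helper26.SG.Null

/-!
# The Kac-Rice formula for the generalized eigenvalues of a pencil
-/

set_option autoImplicit false

open MeasureTheory Set Filter Topology
open scoped ENNReal

namespace Pool.Agent.helper26.SG

variable {N : ℕ}

/-! ### splitting off the first column -/

lemma mp_mk (N : ℕ) : MeasurePreserving
    (fun p : (Fin (N + 1) → ℂ) × (Fin (N + 1) → Fin N → ℂ) => mk p.1 p.2)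
    (volume.prod volume) volume := by
  have h1 : MeasurePreserving (MeasurableEquiv.arrowProdEquivProdArrow ℂ (Fin N → ℂ) (Fin (N + 1))).symm :=
    (volume_measurePreserving_arrowProdEquivProdArrow ℂ (Fin N → ℂ) (Fin (N + 1))).symm
  have h2 : MeasurePreserving (fun (a : Fin (N + 1) → ℂ × (Fin N → ℂ)) (i : Fin (N + 1)) =>
      (MeasurableEquiv.piFinSuccAbove (fun _ : Fin (N + 1) => ℂ) 0).symm (a i)) :=
    volume_preserving_pi (fun _ => (volume_preserving_piFinSuccAbove (fun _ : Fin (N + 1) => ℂ) 0).symm)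
  have h3 := h2.comp h1
  have he : (fun p : (Fin (N + 1) → ℂ) × (Fin (N + 1) → Fin N → ℂ) => mk p.1 p.2) =
      (fun (a : Fin (N + 1) → ℂ × (Fin N → ℂ)) (i : Fin (N + 1)) =>
      (MeasurableEquiv.piFinSuccAbove (fun _ : Fin (N + 1) => ℂ) 0).symm (a i)) ∘
      (MeasurableEquiv.arrowProdEquivProdArrow ℂ (Fin N → ℂ) (Fin (N + 1))).symm := by
    funext p i
    show _ = Fin.insertNth (α := fun _ => ℂ) 0 (p.1 i) (p.2 i)
    rw [Fin.insertNth_zero']
    rfl
  rw [he]
  exact h3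

lemma lintegral_mk (g : (Fin (N + 1) → Fin (N + 1) → ℂ) → ℝ≥0∞) (hg : Measurable g) :
    ∫⁻ A, g A = ∫⁻ P, ∫⁻ a, g (mk a P) := by
  rw [← (mp_mk N).lintegral_comp hg, lintegral_prod_symm]
  exact (hg.comp (mp_mk N).measurable).aemeasurable

lemma mp_cons (N : ℕ) : MeasurePreserving
    (fun p : ℂ × (Fin N → ℂ) => (Fin.cons p.1 p.2 : Fin (N + 1) → ℂ))
    (volume.prod volume) volume := by
  have h := (volume_preserving_piFinSuccAbove (fun _ : Fin (N + 1) => ℂ) 0).symm
  have he : (fun p : ℂ × (Fin N → ℂ) => (Fin.cons p.1 p.2 : Fin (N + 1) → ℂ)) =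
      (MeasurableEquiv.piFinSuccAbove (fun _ : Fin (N + 1) => ℂ) 0).symm := by
    funext p
    show _ = Fin.insertNth (α := fun _ => ℂ) 0 p.1 p.2
    rw [Fin.insertNth_zero']
  rw [he]
  exact h

lemma lintegral_cons (f : (Fin (N + 1) → ℂ) → ℝ≥0∞) (hf : Measurable f) :
    ∫⁻ u, f u = ∫⁻ z, ∫⁻ y, f (Fin.cons z y) := by
  rw [← (mp_cons N).lintegral_comp hf, lintegral_prod]
  exact (hf.comp (mp_cons N).measurable).aemeasurable

/-! ### the formula for fixed `P, Q, b` -/

lemma ae_det_mk (N : ℕ) : ∀ᵐ Q : Fin (N + 1) → Fin N → ℂ, ∀ᵐ b : Fin (N + 1) → ℂ,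
    (Matrix.of (mk b Q)).det ≠ 0 := by
  have h := (mp_mk N).quasiMeasurePreserving.ae (ae_det N)
  have h2 : ∀ᵐ p : (Fin (N + 1) → Fin N → ℂ) × (Fin (N + 1) → ℂ) ∂(volume.prod volume),
      (Matrix.of (mk p.2 p.1)).det ≠ 0 := by
    have := (Measure.measurePreserving_swap (μ := (volume : Measure (Fin (N + 1) → Fin N → ℂ)))
      (ν := (volume : Measure (Fin (N + 1) → ℂ)))).quasiMeasurePreserving.ae h
    exact this
  exact Measure.ae_ae_of_ae_prod h2

lemma fixed (P Q : Fin (N + 1) → Fin N → ℂ) (b : Fin (N + 1) → ℂ)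
    (hB : (Matrix.of (mk b Q)).det ≠ 0)
    (hPQ : ∀ (z : ℂ) (y : Fin N → ℂ), (∀ i, ∑ j, (z * Q i j - P i j) * y j = 0) → y = 0)
    (G : (Fin (N + 1) → ℂ) → ℝ≥0∞) (hG : Measurable G) :
    ∫⁻ u, ENNReal.ofReal (‖(Jm P Q b u).det‖ ^ 2) * G (phi P Q b u) =
      (N + 1 : ℝ≥0∞) * ∫⁻ a, G a := by
  have hcd := contDiff_phi P Q b
  have h := area_mult volume (phi P Q b) (fderiv ℝ (phi P Q b))
    (fun x => hcd.contDiffAt.hasStrictFDerivAt (by simp))
    (hcd.continuous_fderiv (by simp)) (N + 1) G hG (by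
      filter_upwards [ae_regular P Q b] with a ha
      obtain ⟨s, hs, hsc⟩ := fibre_card P Q a b hB hPQ ha
      refine ⟨s, hs, hsc, fun u hu => ?_⟩
      rw [det_fderiv_phi]
      have := ha u ((hs u).1 hu)
      positivity)
  rw [Nat.cast_add, Nat.cast_one] at h
  rw [← h]
  apply lintegral_congr
  intro u
  rw [det_fderiv_phi, abs_of_nonneg (by positivity)]

/-! ### measurability -/

lemma measurable_mk {α : Type*} [MeasurableSpace α] {c : α → Fin (N + 1) → ℂ}
    {P : α → Fin (N + 1) → Fin N → ℂ} (hc : Measurable c) (hP : Measurable P) :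
    Measurable fun x => mk (c x) (P x) :=
  (mp_mk N).measurable.comp (hc.prodMk hP)

lemma measurable_det {α : Type*} [MeasurableSpace α] {M : α → Fin (N + 1) → Fin (N + 1) → ℂ}
    (hM : Measurable M) : Measurable fun x => (Matrix.of (M x)).det := by
  have : Continuous fun A : Fin (N + 1) → Fin (N + 1) → ℂ => (Matrix.of A).det := by
    apply Continuous.matrix_det
    exact continuous_id
  exact this.measurable.comp hM

instance sf2 (m n : ℕ) : SFinite
    (volume : Measure (((Fin m → Fin n → ℂ) × (Fin m → Fin n → ℂ)) × (Fin m → ℂ))) := by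
  rw [Measure.volume_eq_prod]
  have h1 : SFinite (volume : Measure ((Fin m → Fin n → ℂ) × (Fin m → Fin n → ℂ))) := inferInstance
  exact Measure.prod.instSFinite (μ := volume) (ν := volume)

/-- A1 (Kac-Rice / area formula with multiplicity) -/
theorem kac_rice
    (g : (Fin (N + 1) → Fin (N + 1) → ℂ) × (Fin (N + 1) → Fin (N + 1) → ℂ) → ℝ≥0∞)
    (hg : Measurable g) :
    (N + 1 : ℝ≥0∞) * ∫⁻ M, g M =
      ∫⁻ z : ℂ, ∫⁻ y : Fin N → ℂ, ∫⁻ β : Fin (N + 1) → ℂ, ∫⁻ P : Fin (N + 1) → Fin N → ℂ,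
        ∫⁻ Q : Fin (N + 1) → Fin N → ℂ,
          ENNReal.ofReal (‖(Matrix.of (mk β (z • Q - P))).det‖ ^ 2) *
            g (mk (fun i => z * β i - ∑ j, P i j * y j) P,
              mk (fun i => β i - ∑ j, Q i j * y j) Q) := by
  -- the integrand after the shear
  let K : ((Fin (N + 1) → Fin N → ℂ) × (Fin (N + 1) → Fin N → ℂ)) × (Fin (N + 1) → ℂ) →
      (Fin (N + 1) → ℂ) → ℝ≥0∞ := fun p u =>
    ENNReal.ofReal (‖(Jm p.1.1 p.1.2 p.2 u).det‖ ^ 2) *
      g (mk (phi p.1.1 p.1.2 p.2 u) p.1.1, mk p.2 p.1.2)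
  have hJ : Measurable fun q : (((Fin (N + 1) → Fin N → ℂ) × (Fin (N + 1) → Fin N → ℂ)) ×
      (Fin (N + 1) → ℂ)) × (Fin (N + 1) → ℂ) =>
      mk (fun i => q.1.2 i + ∑ j, q.1.1.2 i j * q.2 j.succ) (q.2 0 • q.1.1.2 - q.1.1.1) := by
    apply measurable_mk
    · fun_prop
    · fun_prop
  have hK : Measurable (Function.uncurry K) := by
    apply Measurable.mul
    · apply ENNReal.measurable_ofReal.comp
      apply Measurable.pow_const
      apply Measurable.norm
      exact measurable_det hJ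
    · apply hg.comp
      apply Measurable.prodMk
      · apply measurable_mk
        · unfold phi
          fun_prop
        · fun_prop
      · apply measurable_mk
        · fun_prop
        · fun_prop
  -- integrate out `u`
  have h1 : ∀ᵐ p : ((Fin (N + 1) → Fin N → ℂ) × (Fin (N + 1) → Fin N → ℂ)),
      ∫⁻ b, ∫⁻ u, K (p, b) u = ∫⁻ b, (N + 1 : ℝ≥0∞) * ∫⁻ a, g (mk a p.1, mk b p.2) := by
    have hd : ∀ᵐ p : ((Fin (N + 1) → Fin N → ℂ) × (Fin (N + 1) → Fin N → ℂ)),
        ∀ᵐ b : Fin (N + 1) → ℂ, (Matrix.of (mk b p.2)).det ≠ 0 :=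
      (Measure.quasiMeasurePreserving_snd (μ := (volume : Measure (Fin (N + 1) → Fin N → ℂ)))
        (ν := (volume : Measure (Fin (N + 1) → Fin N → ℂ)))).ae (ae_det_mk N)
    filter_upwards [hd, ae_rank N] with p hp hp2
    apply lintegral_congr_ae
    filter_upwards [hp] with b hb
    exact fixed p.1 p.2 b hb hp2 (fun a => g (mk a p.1, mk b p.2))
      (hg.comp ((measurable_mk measurable_id measurable_const).prodMk measurable_const))
  -- left side
  have h2 : (N + 1 : ℝ≥0∞) * ∫⁻ M, g M = ∫⁻ p : ((Fin (N + 1) → Fin N → ℂ) ×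
      (Fin (N + 1) → Fin N → ℂ)), ∫⁻ b, (N + 1 : ℝ≥0∞) * ∫⁻ a, g (mk a p.1, mk b p.2) := by
    have hF : ∀ {α : Type} [MeasurableSpace α] {a : α → Fin (N + 1) → ℂ}
        {P : α → Fin (N + 1) → Fin N → ℂ} {b : α → Fin (N + 1) → ℂ}
        {Q : α → Fin (N + 1) → Fin N → ℂ}, Measurable a → Measurable P → Measurable b →
        Measurable Q → Measurable (fun x => g (mk (a x) (P x), mk (b x) (Q x))) := by
      intro α _ a P b Q ha hP hb hQ
      exact hg.comp ((measurable_mk ha hP).prodMk (measurable_mk hb hQ))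
    have e1 : ∫⁻ M, g M = ∫⁻ P, ∫⁻ a, ∫⁻ Q, ∫⁻ b, g (mk a P, mk b Q) := by
      rw [Measure.volume_eq_prod, lintegral_prod _ hg.aemeasurable]
      have e2 : ∀ A : Fin (N + 1) → Fin (N + 1) → ℂ, ∫⁻ B, g (A, B) = ∫⁻ Q, ∫⁻ b, g (A, mk b Q) := by
        intro A
        exact lintegral_mk (fun B => g (A, B)) (hg.comp (by fun_prop))
      simp_rw [e2]
      rw [lintegral_mk (fun A => ∫⁻ Q, ∫⁻ b, g (A, mk b Q))]
      apply Measurable.lintegral_prod_right'
        (f := fun x : (Fin (N + 1) → Fin (N + 1) → ℂ) × (Fin (N + 1) → Fin N → ℂ) =>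
          ∫⁻ b, g (x.1, mk b x.2))
      apply Measurable.lintegral_prod_right'
        (f := fun x : ((Fin (N + 1) → Fin (N + 1) → ℂ) × (Fin (N + 1) → Fin N → ℂ)) ×
          (Fin (N + 1) → ℂ) => g (x.1.1, mk x.2 x.1.2))
      apply hg.comp
      apply Measurable.prodMk
      · fun_prop
      · exact measurable_mk (by fun_prop) (by fun_prop)
    have e3 : ∀ P : Fin (N + 1) → Fin N → ℂ, ∫⁻ a, ∫⁻ Q, ∫⁻ b, g (mk a P, mk b Q) =
        ∫⁻ Q, ∫⁻ b, ∫⁻ a, g (mk a P, mk b Q) := by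
      intro P
      rw [lintegral_lintegral_swap (f := fun a Q => ∫⁻ b, g (mk a P, mk b Q))]
      · apply lintegral_congr
        intro Q
        rw [lintegral_lintegral_swap (f := fun a b => g (mk a P, mk b Q))]
        exact (hF (by fun_prop) (by fun_prop) (by fun_prop) (by fun_prop)).aemeasurable
      · apply Measurable.aemeasurable
        apply Measurable.lintegral_prod_right'
          (f := fun x : ((Fin (N + 1) → ℂ) × (Fin (N + 1) → Fin N → ℂ)) × (Fin (N + 1) → ℂ) =>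
            g (mk x.1.1 P, mk x.2 x.1.2))
        exact hF (by fun_prop) (by fun_prop) (by fun_prop) (by fun_prop)
    have m1 : ∀ P Q : Fin (N + 1) → Fin N → ℂ,
        Measurable fun b => ∫⁻ a, g (mk a P, mk b Q) := by
      intro P Q
      apply Measurable.lintegral_prod_right'
        (f := fun x : (Fin (N + 1) → ℂ) × (Fin (N + 1) → ℂ) => g (mk x.2 P, mk x.1 Q))
      exact hF (by fun_prop) (by fun_prop) (by fun_prop) (by fun_prop)
    have m2 : Measurable fun p : (Fin (N + 1) → Fin N → ℂ) × (Fin (N + 1) → Fin N → ℂ) =>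
        ∫⁻ b, ∫⁻ a, g (mk a p.1, mk b p.2) := by
      apply Measurable.lintegral_prod_right'
        (f := fun x : ((Fin (N + 1) → Fin N → ℂ) × (Fin (N + 1) → Fin N → ℂ)) ×
          (Fin (N + 1) → ℂ) => ∫⁻ a, g (mk a x.1.1, mk x.2 x.1.2))
      apply Measurable.lintegral_prod_right'
        (f := fun x : (((Fin (N + 1) → Fin N → ℂ) × (Fin (N + 1) → Fin N → ℂ)) ×
          (Fin (N + 1) → ℂ)) × (Fin (N + 1) → ℂ) => g (mk x.2 x.1.1.1, mk x.1.2 x.1.1.2))
      exact hF (by fun_prop) (by fun_prop) (by fun_prop) (by fun_prop)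
    rw [e1]
    simp_rw [e3]
    have e4 : ∀ p : (Fin (N + 1) → Fin N → ℂ) × (Fin (N + 1) → Fin N → ℂ),
        ∫⁻ b, (N + 1 : ℝ≥0∞) * ∫⁻ a, g (mk a p.1, mk b p.2) =
        (N + 1 : ℝ≥0∞) * ∫⁻ b, ∫⁻ a, g (mk a p.1, mk b p.2) := by
      intro p
      rw [lintegral_const_mul _ (m1 _ _)]
    simp_rw [e4]
    rw [lintegral_const_mul _ m2, Measure.volume_eq_prod (Fin (N + 1) → Fin N → ℂ),
      lintegral_prod _ m2.aemeasurable]
  -- right side
  have h3 : ∫⁻ z : ℂ, ∫⁻ y : Fin N → ℂ, ∫⁻ β : Fin (N + 1) → ℂ, ∫⁻ P : Fin (N + 1) → Fin N → ℂ,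
        ∫⁻ Q : Fin (N + 1) → Fin N → ℂ,
          ENNReal.ofReal (‖(Matrix.of (mk β (z • Q - P))).det‖ ^ 2) *
            g (mk (fun i => z * β i - ∑ j, P i j * y j) P,
              mk (fun i => β i - ∑ j, Q i j * y j) Q) =
      ∫⁻ p : ((Fin (N + 1) → Fin N → ℂ) × (Fin (N + 1) → Fin N → ℂ)), ∫⁻ b, ∫⁻ u, K (p, b) u := by
    have e1 : ∀ (z : ℂ) (y : Fin N → ℂ), ∫⁻ β : Fin (N + 1) → ℂ, ∫⁻ P : Fin (N + 1) → Fin N → ℂ,
        ∫⁻ Q : Fin (N + 1) → Fin N → ℂ,
          ENNReal.ofReal (‖(Matrix.of (mk β (z • Q - P))).det‖ ^ 2) *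
            g (mk (fun i => z * β i - ∑ j, P i j * y j) P,
              mk (fun i => β i - ∑ j, Q i j * y j) Q) =
        ∫⁻ p : ((Fin (N + 1) → Fin N → ℂ) × (Fin (N + 1) → Fin N → ℂ)), ∫⁻ b,
          K (p, b) (Fin.cons z y) := by
      intro z y
      let H : (Fin (N + 1) → ℂ) → ((Fin (N + 1) → Fin N → ℂ) × (Fin (N + 1) → Fin N → ℂ)) →
          ℝ≥0∞ := fun β p => ENNReal.ofReal (‖(Matrix.of (mk β (z • p.2 - p.1))).det‖ ^ 2) *
            g (mk (fun i => z * β i - ∑ j, p.1 i j * y j) p.1,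
              mk (fun i => β i - ∑ j, p.2 i j * y j) p.2)
      have hH : Measurable (Function.uncurry H) := by
        apply Measurable.mul
        · apply ENNReal.measurable_ofReal.comp
          apply Measurable.pow_const
          apply Measurable.norm
          apply measurable_det
          apply measurable_mk
          · fun_prop
          · fun_prop
        · apply hg.comp
          apply Measurable.prodMk
          · apply measurable_mk
            · fun_prop
            · fun_prop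
          · apply measurable_mk
            · fun_prop
            · fun_prop
      have e2 : ∀ β, ∫⁻ P : Fin (N + 1) → Fin N → ℂ,
        ∫⁻ Q : Fin (N + 1) → Fin N → ℂ,
          ENNReal.ofReal (‖(Matrix.of (mk β (z • Q - P))).det‖ ^ 2) *
            g (mk (fun i => z * β i - ∑ j, P i j * y j) P,
              mk (fun i => β i - ∑ j, Q i j * y j) Q) = ∫⁻ p, H β p := by
        intro β
        rw [Measure.volume_eq_prod (Fin (N + 1) → Fin N → ℂ), lintegral_prod]
        exact (hH.comp measurable_prodMk_left).aemeasurable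
      simp_rw [e2]
      rw [lintegral_lintegral_swap hH.aemeasurable]
      apply lintegral_congr
      intro p
      rw [← lintegral_add_right_eq_self (fun β => H β p) (fun i => ∑ j, p.2 i j * y j)]
      apply lintegral_congr
      intro b
      simp only [H, K, Jm, Pi.add_apply, Fin.cons_zero, Fin.cons_succ, add_sub_cancel_right]
      congr 4
      funext i
      simp only [phi, Fin.cons_zero, Fin.cons_succ, mul_add, Finset.mul_sum, sub_mul,
        Finset.sum_sub_distrib, mul_assoc]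
      ring
    simp_rw [e1]
    rw [← lintegral_cons (fun u => ∫⁻ p : ((Fin (N + 1) → Fin N → ℂ) × (Fin (N + 1) → Fin N → ℂ)),
      ∫⁻ b, K (p, b) u)]
    · have e2 : ∀ u, ∫⁻ p : ((Fin (N + 1) → Fin N → ℂ) × (Fin (N + 1) → Fin N → ℂ)),
          ∫⁻ b, K (p, b) u = ∫⁻ q : ((Fin (N + 1) → Fin N → ℂ) × (Fin (N + 1) → Fin N → ℂ)) ×
          (Fin (N + 1) → ℂ), K q u := by
        intro u
        rw [Measure.volume_eq_prod ((Fin (N + 1) → Fin N → ℂ) × (Fin (N + 1) → Fin N → ℂ)),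
          lintegral_prod]
        exact (hK.comp measurable_prodMk_right).aemeasurable
      simp_rw [e2]
      rw [lintegral_lintegral_swap (f := fun u q => K q u)]
      · rw [Measure.volume_eq_prod ((Fin (N + 1) → Fin N → ℂ) × (Fin (N + 1) → Fin N → ℂ)),
          lintegral_prod]
        apply Measurable.aemeasurable
        exact Measurable.lintegral_prod_right' hK
      · exact (hK.comp measurable_swap).aemeasurable
    · apply Measurable.lintegral_prod_right'
        (f := fun x : (Fin (N + 1) → ℂ) × ((Fin (N + 1) → Fin N → ℂ) × (Fin (N + 1) → Fin N → ℂ)) =>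
          ∫⁻ b, K (x.2, b) x.1)
      apply Measurable.lintegral_prod_right'
        (f := fun x : ((Fin (N + 1) → ℂ) × ((Fin (N + 1) → Fin N → ℂ) ×
          (Fin (N + 1) → Fin N → ℂ))) × (Fin (N + 1) → ℂ) => K (x.1.2, x.2) x.1.1)
      exact hK.comp (f := fun x : ((Fin (N + 1) → ℂ) × ((Fin (N + 1) → Fin N → ℂ) ×
          (Fin (N + 1) → Fin N → ℂ))) × (Fin (N + 1) → ℂ) => ((x.1.2, x.2), x.1.1)) (by fun_prop)
  rw [h2, h3]
  exact lintegral_congr_ae (h1.mono fun p hp => hp.symm)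

end Pool.Agent.helper26.SG
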