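import Mathlib
import Pool.Agent.helper84.SG.Defs2

/-!
# The law of the pencil polynomial, from the deflation identity
-/

set_option autoImplicit false
open MeasureTheory ProbabilityTheory Filter Topology
open scoped NNReal ENNReal

namespace Pool.Agent.helper26.SG

open Pool.Agent.helper84.SG

/-! ### homogeneous evaluation -/

/-- homogeneous evaluation of a polynomial -/
lemma hev_pcoef {n : ℕ} (P : Polynomial ℂ) (hP : P.natDegree ≤ n) (e : ℂ × ℂ) (he : e.2 ≠ 0) :
    hev (pcoef n P) e = e.2 ^ n * P.eval (e.1 / e.2) := by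
  rw [Polynomial.eval_eq_sum_range' (Nat.lt_succ_of_le hP), Finset.mul_sum,
    Finset.sum_range]
  unfold hev pcoef
  apply Finset.sum_congr rfl
  intro k _
  have hk : (k : ℕ) ≤ n := Nat.lt_succ_iff.1 k.2
  rw [div_pow, show e.2 ^ n = e.2 ^ (n - (k : ℕ)) * e.2 ^ (k : ℕ) by
    rw [← pow_add, Nat.sub_add_cancel hk]]
  field_simp

lemma hev_pcoef_zero {n : ℕ} (P : Polynomial ℂ) (e : ℂ × ℂ) (he : e.2 = 0) :
    hev (pcoef n P) e = P.coeff n * e.1 ^ n := by
  unfold hev pcoef
  rw [Fin.sum_univ_castSucc, Finset.sum_eq_zero]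
  · simp
  · intro k _
    have : n - (k.castSucc : ℕ) ≠ 0 := by
      have := k.2
      simp only [Fin.val_castSucc]
      omega
    rw [he, zero_pow this, mul_zero]

lemma ppoly_eq {n : ℕ} (M : (Fin n → Fin n → ℂ) × (Fin n → Fin n → ℂ)) :
    ppoly M = ((Polynomial.X : Polynomial ℂ) • (Matrix.of M.2).map Polynomial.C
      + (-Matrix.of M.1).map Polynomial.C).det := by
  unfold ppoly
  congr 1
  ext i j
  simp [sub_eq_add_neg]

lemma ppoly_natDegree {n : ℕ} (M : (Fin n → Fin n → ℂ) × (Fin n → Fin n → ℂ)) :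
    (ppoly M).natDegree ≤ n := by
  rw [ppoly_eq]
  have := Polynomial.natDegree_det_X_add_C_le (Matrix.of M.2) (-Matrix.of M.1)
  rwa [Fintype.card_fin] at this

lemma ppoly_coeff {n : ℕ} (M : (Fin n → Fin n → ℂ) × (Fin n → Fin n → ℂ)) :
    (ppoly M).coeff n = (Matrix.of M.2).det := by
  rw [ppoly_eq]
  have := Polynomial.coeff_det_X_add_C_card (Matrix.of M.2) (-Matrix.of M.1)
  rwa [Fintype.card_fin] at this

lemma ppoly_eval {n : ℕ} (M : (Fin n → Fin n → ℂ) × (Fin n → Fin n → ℂ)) (z : ℂ) :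
    (ppoly M).eval z = (z • Matrix.of M.2 - Matrix.of M.1).det := by
  unfold ppoly
  rw [← Polynomial.coe_evalRingHom, RingHom.map_det]
  congr 1
  ext i j
  simp
  ring

/-- `det (α B - β A)` is the homogeneous evaluation of the pencil polynomial -/
lemma pf_eq_hev {n : ℕ} (M : (Fin n → Fin n → ℂ) × (Fin n → Fin n → ℂ)) (e : ℂ × ℂ) :
    pf M e = hev (pcoef n (ppoly M)) e := by
  by_cases he : e.2 = 0
  · rw [hev_pcoef_zero _ _ he, ppoly_coeff]
    unfold pf
    rw [he, zero_smul, sub_zero, Matrix.det_smul, Fintype.card_fin, mul_comm]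
  · rw [hev_pcoef _ (ppoly_natDegree M) _ he, ppoly_eval]
    unfold pf
    have : e.1 • Matrix.of M.2 - e.2 • Matrix.of M.1 =
        e.2 • ((e.1 / e.2) • Matrix.of M.2 - Matrix.of M.1) := by
      rw [smul_sub, smul_smul, mul_div_cancel₀ _ he]
    rw [this, Matrix.det_smul, Fintype.card_fin]

lemma vpoly_natDegree {n : ℕ} (v : Fin n → ℂ × ℂ) : (vpoly v).natDegree ≤ n := by
  unfold vpoly
  refine (Polynomial.natDegree_prod_le _ _).trans ?_
  refine (Finset.sum_le_card_nsmul _ _ 1 fun k _ => ?_).trans ?_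
  · show (Polynomial.C (v k).2 * Polynomial.X - Polynomial.C (v k).1).natDegree ≤ 1
    compute_degree
  · simp

lemma hev_vpoly {n : ℕ} (v : Fin n → ℂ × ℂ) (e : ℂ × ℂ) :
    hev (pcoef n (vpoly v)) e = ∏ k, (e.1 * (v k).2 - e.2 * (v k).1) := by
  by_cases he : e.2 = 0
  · rw [hev_pcoef_zero _ _ he]
    have h : (vpoly v).coeff n = ∏ k, (v k).2 := by
      unfold vpoly
      have := Polynomial.coeff_prod_of_natDegree_le (s := (Finset.univ : Finset (Fin n)))
        (fun k => Polynomial.C (v k).2 * Polynomial.X - Polynomial.C (v k).1) 1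
        (fun k _ => by compute_degree)
      simp only [Finset.card_univ, Fintype.card_fin, mul_one] at this
      rw [this]
      apply Finset.prod_congr rfl
      intro k _
      simp
    rw [h, he]
    simp only [zero_mul, sub_zero]
    rw [Finset.prod_mul_distrib, Finset.prod_const, Finset.card_univ, Fintype.card_fin, mul_comm]
  · rw [hev_pcoef _ (vpoly_natDegree v) _ he]
    unfold vpoly
    rw [Polynomial.eval_prod]
    have : e.2 ^ n = ∏ _k : Fin n, e.2 := by simp
    rw [this, ← Finset.prod_mul_distrib]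
    apply Finset.prod_congr rfl
    intro k _
    simp
    field_simp

lemma ofc_pcoef {n : ℕ} (P : Polynomial ℂ) (hP : P.natDegree ≤ n) : ofc (pcoef n P) = P := by
  conv_rhs => rw [P.as_sum_range_C_mul_X_pow' (Nat.lt_succ_of_le hP)]
  rw [Finset.sum_range]
  rfl

/-! ### measurability -/

lemma measurable_hev {n : ℕ} (e : ℂ × ℂ) : Measurable fun f : Fin (n + 1) → ℂ => hev f e := by
  unfold hev
  fun_prop

lemma measurable_coef_mul {n : ℕ} (v : ℂ × ℂ) : Measurable fun f : Fin (n + 1) → ℂ =>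
    pcoef (n + 1) ((Polynomial.C v.2 * Polynomial.X - Polynomial.C v.1) * ofc f) := by
  apply measurable_pi_lambda
  intro k
  unfold pcoef ofc
  simp only [Finset.mul_sum, Polynomial.finsetSum_coeff]
  apply Finset.measurable_sum
  intro j _
  have : ∀ f : Fin (n + 1) → ℂ, ((Polynomial.C v.2 * Polynomial.X - Polynomial.C v.1) *
      (Polynomial.C (f j) * Polynomial.X ^ (j : ℕ))).coeff k =
      f j * ((Polynomial.C v.2 * Polynomial.X - Polynomial.C v.1) * Polynomial.X ^ (j : ℕ)).coeff k := by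
    intro f
    rw [← Polynomial.coeff_C_mul]
    congr 1
    ring
  simp_rw [this]
  fun_prop

lemma measurable_vand (n : ℕ) : Measurable (vand : (Fin n → ℂ × ℂ) → ℝ) := by
  unfold vand
  fun_prop

lemma measurable_vpoly (n : ℕ) : Measurable fun v : Fin n → ℂ × ℂ => pcoef n (vpoly v) := by
  apply measurable_pi_lambda
  intro k
  unfold pcoef vpoly
  have : ∀ (s : Finset (Fin n)) (k : ℕ), Measurable fun v : Fin n → ℂ × ℂ =>
      (∏ i ∈ s, (Polynomial.C (v i).2 * Polynomial.X - Polynomial.C (v i).1)).coeff k := by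
    intro s
    induction s using Finset.induction_on with
    | empty => intro k; simp only [Finset.prod_empty]; exact measurable_const
    | insert i s hi ih =>
      intro k
      simp only [Finset.prod_insert hi, Polynomial.coeff_mul]
      apply Finset.measurable_sum
      intro x _
      apply Measurable.mul _ (ih _)
      simp only [Polynomial.coeff_sub, Polynomial.coeff_C_mul, Polynomial.coeff_C]
      apply Measurable.sub
      · fun_prop
      · split_ifs
        · fun_prop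
        · fun_prop
  exact this Finset.univ k

lemma ens_succ (n : ℕ) (F : (Fin (n + 1) → ℂ × ℂ) → ℝ≥0∞) (hF : Measurable F) :
    ∫⁻ w, F w ∂(ens (n + 1)) = ∫⁻ v, ∫⁻ v', F (Fin.cons v v') ∂(ens n) ∂(cg.prod cg) := by
  have h : MeasurePreserving (fun p : (ℂ × ℂ) × (Fin n → ℂ × ℂ) =>
      (Fin.cons p.1 p.2 : Fin (n + 1) → ℂ × ℂ)) ((cg.prod cg).prod (ens n)) (ens (n + 1)) := by
    have h1 := (measurePreserving_piFinSuccAbove (fun _ : Fin (n + 1) => cg.prod cg) 0).symm
    have he : (fun p : (ℂ × ℂ) × (Fin n → ℂ × ℂ) => (Fin.cons p.1 p.2 : Fin (n + 1) → ℂ × ℂ)) =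
      (MeasurableEquiv.piFinSuccAbove (fun _ : Fin (n + 1) => ℂ × ℂ) 0).symm := by
      funext p
      show _ = Fin.insertNth (α := fun _ => ℂ × ℂ) 0 p.1 p.2
      rw [Fin.insertNth_zero']
    rw [he]
    exact h1
  rw [← h.lintegral_comp hF, lintegral_prod]
  exact (hF.comp h.measurable).aemeasurable

lemma vand_cons {n : ℕ} (v : ℂ × ℂ) (v' : Fin n → ℂ × ℂ) :
    vand (Fin.cons v v' : Fin (n + 1) → ℂ × ℂ) =
      ‖hev (pcoef n (vpoly v')) v‖ ^ 2 * vand v' := by
  rw [hev_vpoly, norm_prod, ← Finset.prod_pow]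
  unfold vand
  rw [Fin.prod_univ_succ]
  congr 1
  · rw [Fin.prod_Ioi_zero]
    apply Finset.prod_congr rfl
    intro k _
    simp only [Fin.cons_zero, Fin.cons_succ]
    rw [mul_comm v.2]
  · apply Finset.prod_congr rfl
    intro i _
    rw [Fin.prod_Ioi_succ]
    simp only [Fin.cons_succ]

lemma vpoly_cons {n : ℕ} (v : ℂ × ℂ) (v' : Fin n → ℂ × ℂ) :
    vpoly (Fin.cons v v' : Fin (n + 1) → ℂ × ℂ) =
      (Polynomial.C v.2 * Polynomial.X - Polynomial.C v.1) * vpoly v' := by
  unfold vpoly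
  rw [Fin.prod_univ_succ]
  simp only [Fin.cons_zero, Fin.cons_succ]

lemma hev_smul {n : ℕ} (c : ℂ) (f : Fin (n + 1) → ℂ) (e : ℂ × ℂ) :
    hev (c • f) e = c * hev f e := by
  unfold hev
  rw [Finset.mul_sum]
  apply Finset.sum_congr rfl
  intro k _
  simp only [Pi.smul_apply, smul_eq_mul]
  ring

lemma ofc_smul {n : ℕ} (c : ℂ) (f : Fin (n + 1) → ℂ) :
    ofc (c • f) = Polynomial.C c * ofc f := by
  unfold ofc
  rw [Finset.mul_sum]
  apply Finset.sum_congr rfl
  intro k _
  simp only [Pi.smul_apply, smul_eq_mul, Polynomial.C_mul]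
  ring

lemma pcoef_C_mul {n : ℕ} (c : ℂ) (P : Polynomial ℂ) :
    pcoef n (Polynomial.C c * P) = c • pcoef n P := by
  funext k
  simp [pcoef]

/-- the deflation identity -/
def Deflation : Prop := ∀ N : ℕ, ∃ c : ℝ≥0∞, c ≠ 0 ∧ c ≠ ∞ ∧
      ∀ Ψ : (Fin (N + 2) → ℂ) → ℝ≥0∞, Measurable Ψ →
        (∀ (ω : ℂ) (f), ‖ω‖ = 1 → Ψ (ω • f) = Ψ f) →
        ∫⁻ M, Ψ (pcoef (N + 1) (ppoly M)) ∂(pen (N + 1)) =
          c * ∫⁻ v, ∫⁻ M', ENNReal.ofReal (‖pf M' v‖ ^ 2) *
            Ψ (pcoef (N + 1) ((Polynomial.C v.2 * Polynomial.X - Polynomial.C v.1) * ppoly M'))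
              ∂(pen N) ∂(cg.prod cg)

lemma pencil_law_aux (hdef : Deflation) (n : ℕ) :
    (∫⁻ v, ENNReal.ofReal (vand v) ∂(ens n)) ≠ ∞ ∧
    ∀ (Ψ : (Fin (n + 1) → ℂ) → ℝ≥0∞), Measurable Ψ →
    (∀ (ω : ℂ) (f), ‖ω‖ = 1 → Ψ (ω • f) = Ψ f) →
    (∫⁻ v, ENNReal.ofReal (vand v) ∂(ens n)) * ∫⁻ M, Ψ (pcoef n (ppoly M)) ∂(pen n) =
      ∫⁻ v, Ψ (pcoef n (vpoly v)) * ENNReal.ofReal (vand v) ∂(ens n) := by
  induction n with
  | zero =>
    have h3 : ∀ v : Fin 0 → ℂ × ℂ, vand v = 1 := by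
      intro v; unfold vand; simp
    refine ⟨?_, ?_⟩
    · simp_rw [h3]; simp
    intro Ψ hΨ hinv
    have h1 : ∀ M : (Fin 0 → Fin 0 → ℂ) × (Fin 0 → Fin 0 → ℂ), ppoly M = 1 := by
      intro M; unfold ppoly; exact Matrix.det_isEmpty
    have h2 : ∀ v : Fin 0 → ℂ × ℂ, vpoly v = 1 := by
      intro v; unfold vpoly; simp
    simp_rw [h1, h2, h3]
    simp
  | succ N ih =>
    obtain ⟨hfin, ih⟩ := ih
    obtain ⟨c, hc0, hct, hc⟩ := hdef N
    -- the key identity
    have key : ∀ (Ψ : (Fin (N + 2) → ℂ) → ℝ≥0∞), Measurable Ψ →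
        (∀ (ω : ℂ) (f), ‖ω‖ = 1 → Ψ (ω • f) = Ψ f) →
        (∫⁻ v, ENNReal.ofReal (vand v) ∂(ens N)) *
          ∫⁻ M, Ψ (pcoef (N + 1) (ppoly M)) ∂(pen (N + 1)) =
        c * ∫⁻ v, Ψ (pcoef (N + 1) (vpoly v)) * ENNReal.ofReal (vand v) ∂(ens (N + 1)) := by
      intro Ψ hΨ hinv
      rw [hc Ψ hΨ hinv, ens_succ N]
      · rw [← mul_assoc, mul_comm _ c, mul_assoc]
        congr 1
        rw [← lintegral_const_mul' _ _ hfin]
        apply lintegral_congr
        intro v
        have h := ih (fun f => ENNReal.ofReal (‖hev f v‖ ^ 2) *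
          Ψ (pcoef (N + 1) ((Polynomial.C v.2 * Polynomial.X - Polynomial.C v.1) * ofc f)))
          (by
            apply Measurable.mul
            · apply ENNReal.measurable_ofReal.comp
              exact (measurable_hev v).norm.pow_const 2
            · exact hΨ.comp (measurable_coef_mul v))
          (by
            intro ω f hω
            rw [hev_smul, norm_mul, hω, one_mul, ofc_smul]
            have : (Polynomial.C v.2 * Polynomial.X - Polynomial.C v.1) *
                (Polynomial.C ω * ofc f) = Polynomial.C ω *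
                ((Polynomial.C v.2 * Polynomial.X - Polynomial.C v.1) * ofc f) := by ring
            rw [this, pcoef_C_mul, hinv _ _ hω])
        have e1 : ∀ M' : (Fin N → Fin N → ℂ) × (Fin N → Fin N → ℂ),
            ENNReal.ofReal (‖hev (pcoef N (ppoly M')) v‖ ^ 2) *
            Ψ (pcoef (N + 1) ((Polynomial.C v.2 * Polynomial.X - Polynomial.C v.1) *
              ofc (pcoef N (ppoly M')))) =
            ENNReal.ofReal (‖pf M' v‖ ^ 2) *
            Ψ (pcoef (N + 1) ((Polynomial.C v.2 * Polynomial.X - Polynomial.C v.1) * ppoly M')) := by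
          intro M'
          rw [← pf_eq_hev, ofc_pcoef _ (ppoly_natDegree M')]
        simp_rw [e1] at h
        rw [h]
        apply lintegral_congr
        intro v'
        rw [ofc_pcoef _ (vpoly_natDegree v'), vpoly_cons, vand_cons,
          ENNReal.ofReal_mul (by positivity)]
        ring
      · exact (hΨ.comp (measurable_vpoly (N + 1))).mul
          (ENNReal.measurable_ofReal.comp (measurable_vand (N + 1)))
    have h1 := key (fun _ => 1) measurable_const (fun _ _ _ => rfl)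
    simp only [lintegral_const, measure_univ, mul_one, one_mul] at h1
    refine ⟨?_, ?_⟩
    · intro h
      rw [h, ENNReal.mul_top hc0] at h1
      exact hfin h1
    · intro Ψ hΨ hinv
      have h2 := key Ψ hΨ hinv
      rw [h1, mul_assoc] at h2
      exact (ENNReal.mul_right_inj hc0 hct).1 h2

/-- A3 (law of the pencil polynomial), from the deflation identity A2 -/
theorem pencil_law_of (hdef : Deflation) (n : ℕ) (Ψ : (Fin (n + 1) → ℂ) → ℝ≥0∞)
    (hΨ : Measurable Ψ) (hinv : ∀ (ω : ℂ) (f), ‖ω‖ = 1 → Ψ (ω • f) = Ψ f) :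
    (∫⁻ v, ENNReal.ofReal (vand v) ∂(ens n)) * ∫⁻ M, Ψ (pcoef n (ppoly M)) ∂(pen n) =
      ∫⁻ v, Ψ (pcoef n (vpoly v)) * ENNReal.ofReal (vand v) ∂(ens n) :=
  (pencil_law_aux hdef n).2 Ψ hΨ hinv

/-- the normalisation constant is finite -/
theorem vand_integral_ne_top (hdef : Deflation) (n : ℕ) :
    (∫⁻ v, ENNReal.ofReal (vand v) ∂(ens n)) ≠ ∞ := (pencil_law_aux hdef n).1

end Pool.Agent.helper26.SG
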